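import Pool.Agent.H943R3.Dom
import Pool.Agent.H943R3.ExistF

/-!
There is a bounded convex domain in `ℝ³` for which, for every Robin parameter `α > 0`, a first
Robin eigenfunction exists and no first Robin eigenfunction is log-concave.
-/

namespace Pool.Agent.Results.MP_c1ff29_an.RobinNotLogConcave

open Pool.Agent.H943R3

theorem good_Om : Good Om := by
  have h : Bornology.IsBounded (Pol nn cc) := by
    rw [← Om_eq]
    exact Om_bdd
  rw [Om_eq]
  exact good_Pol nn_norm h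

theorem result : ∃ Ω : Set (EuclideanSpace ℝ (Fin 3)),
    IsOpen Ω ∧ Convex ℝ Ω ∧ Bornology.IsBounded Ω ∧ Ω.Nonempty ∧
    ∀ α : ℝ, 0 < α →
      (∃ u : EuclideanSpace ℝ (Fin 3) → ℝ, IsFirstRobin Ω α u) ∧
      ∀ u : EuclideanSpace ℝ (Fin 3) → ℝ, IsFirstRobin Ω α u →
        ¬ ConcaveOn ℝ Ω (fun x => Real.log (u x)) :=
  ⟨Om, Om_open, Om_convex, Om_bdd, ⟨_, Om_nonempty⟩, fun _ hα =>
    ⟨exists_firstRobin good_Om Om_convex ⟨_, Om_nonempty⟩ hα.le,
      fun _ hu hc => no_logconcave hα hu hc⟩⟩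

end Pool.Agent.Results.MP_c1ff29_an.RobinNotLogConcave
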